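import Mathlib

namespace Pool.Agent.Fix85

/-- the number of decimal digits of `y` -/
def len (y : ℕ) : ℕ := (Nat.digits 10 y).length

/-- the number whose decimal representation is that of `x` followed by that of `y` -/
def cat (x y : ℕ) : ℕ := x * 10 ^ len y + y

/-- the list `p_1, e_1, p_2, e_2, ...` of the primes dividing `n`, in increasing order, each
followed by its exponent -/
def lst (n : ℕ) : List ℕ :=
  (n.primeFactors.sort (· ≤ ·)).flatMap (fun p => [p, n.factorization p])

/-- the encoding `a(n)`: the members of the list written side by side -/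
def code (n : ℕ) : ℕ := (lst n).foldl cat 0

/-- total number of digits of the members of a list -/
def tot (l : List ℕ) : ℕ := (l.map len).sum

/-- number of digits of the encoding -/
def L (n : ℕ) : ℕ := tot (lst n)

lemma lt_pow_len (y : ℕ) : y < 10 ^ len y := Nat.lt_base_pow_length_digits (by norm_num)

lemma foldl_cat (l : List ℕ) : ∀ x, l.foldl cat x = x * 10 ^ tot l + l.foldl cat 0 := by
  induction l with
  | nil => intro x; simp [tot]
  | cons y l ih =>
    intro x
    simp only [List.foldl_cons]
    rw [ih (cat x y), ih (cat 0 y)]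
    simp only [cat, tot, List.map_cons, List.sum_cons, zero_mul, zero_add, pow_add]
    ring

lemma foldl_lt (l : List ℕ) : l.foldl cat 0 < 10 ^ tot l := by
  induction l with
  | nil => simp [tot]
  | cons y l ih =>
    simp only [List.foldl_cons]
    rw [foldl_cat]
    have h1 : cat 0 y = y := by simp [cat]
    have h2 : tot (y :: l) = len y + tot l := by simp [tot]
    rw [h1, h2, pow_add]
    have := lt_pow_len y
    calc y * 10 ^ tot l + l.foldl cat 0 < y * 10 ^ tot l + 10 ^ tot l := by omega
      _ = (y + 1) * 10 ^ tot l := by ring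
      _ ≤ 10 ^ len y * 10 ^ tot l := Nat.mul_le_mul_right _ this

lemma tot_append (l l' : List ℕ) : tot (l ++ l') = tot l + tot l' := by simp [tot]

lemma foldl_append' (l l' : List ℕ) :
    (l ++ l').foldl cat 0 = l.foldl cat 0 * 10 ^ tot l' + l'.foldl cat 0 := by
  rw [List.foldl_append, foldl_cat]

lemma code_lt (n : ℕ) : code n < 10 ^ L n := foldl_lt _

/-- all primes of `m` are smaller than all primes of `w` -/
def Sep (m w : ℕ) : Prop := ∀ p ∈ m.primeFactors, ∀ q ∈ w.primeFactors, p < q

lemma sort_union {s t : Finset ℕ} (h : ∀ p ∈ s, ∀ q ∈ t, p < q) :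
    (s ∪ t).sort (· ≤ ·) = s.sort (· ≤ ·) ++ t.sort (· ≤ ·) := by
  have hd : Disjoint s t := by
    rw [Finset.disjoint_left]
    intro p hp hq
    exact lt_irrefl p (h p hp p hq)
  refine List.Perm.eq_of_pairwise' (r := (· ≤ ·)) ?_ ?_ ?_
  · exact Finset.pairwise_sort _ _
  · rw [List.pairwise_append]
    refine ⟨Finset.pairwise_sort _ _, Finset.pairwise_sort _ _, ?_⟩
    intro a ha b hb
    rw [Finset.mem_sort] at ha hb
    exact (h a ha b hb).le
  · refine (List.perm_ext_iff_of_nodup (Finset.sort_nodup _ _) ?_).2 ?_
    · rw [List.nodup_append]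
      refine ⟨Finset.sort_nodup _ _, Finset.sort_nodup _ _, ?_⟩
      intro a ha b hb hab
      rw [Finset.mem_sort] at ha hb
      exact absurd (h a ha b hb) (by omega)
    · intro a
      simp [Finset.mem_sort, List.mem_append, Finset.mem_union]

lemma lst_mul {m w : ℕ} (hm : m ≠ 0) (hw : w ≠ 0) (h : Sep m w) :
    lst (m * w) = lst m ++ lst w := by
  unfold lst
  rw [Nat.primeFactors_mul hm hw, sort_union h, List.flatMap_append]
  congr 1
  · refine List.flatMap_congr fun p hp => ?_
    rw [Finset.mem_sort] at hp
    have : w.factorization p = 0 := by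
      by_contra h0
      have hq : p ∈ w.primeFactors := by
        rw [← Nat.support_factorization]; exact Finsupp.mem_support_iff.2 h0
      exact lt_irrefl p (h p hp p hq)
    rw [Nat.factorization_mul hm hw, Finsupp.add_apply, this, add_zero]
  · refine List.flatMap_congr fun p hp => ?_
    rw [Finset.mem_sort] at hp
    have : m.factorization p = 0 := by
      by_contra h0
      have hq : p ∈ m.primeFactors := by
        rw [← Nat.support_factorization]; exact Finsupp.mem_support_iff.2 h0
      exact lt_irrefl p (h p hq p hp)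
    rw [Nat.factorization_mul hm hw, Finsupp.add_apply, this, zero_add]

lemma code_mul {m w : ℕ} (hm : m ≠ 0) (hw : w ≠ 0) (h : Sep m w) :
    code (m * w) = code m * 10 ^ L w + code w := by
  unfold code L
  rw [lst_mul hm hw h, foldl_append']

lemma L_mul {m w : ℕ} (hm : m ≠ 0) (hw : w ≠ 0) (h : Sep m w) :
    L (m * w) = L m + L w := by
  unfold L
  rw [lst_mul hm hw h, tot_append]

lemma lst_prime_pow {p e : ℕ} (hp : p.Prime) (he : 1 ≤ e) : lst (p ^ e) = [p, e] := by
  unfold lst
  rw [Nat.primeFactors_prime_pow (by omega) hp]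
  simp [hp.factorization_pow]

lemma code_prime_pow {p e : ℕ} (hp : p.Prime) (he : 1 ≤ e) :
    code (p ^ e) = p * 10 ^ len e + e := by
  unfold code
  rw [lst_prime_pow hp he]
  simp [cat]

lemma L_prime_pow {p e : ℕ} (hp : p.Prime) (he : 1 ≤ e) : L (p ^ e) = len p + len e := by
  unfold L
  rw [lst_prime_pow hp he]
  simp [tot]

lemma lst_one : lst 1 = [] := by simp [lst]

lemma L_one : L 1 = 0 := by simp [L, lst_one, tot]

end Pool.Agent.Fix85
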