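import Pool.Agent.Fix85.Cross

namespace Pool.Agent.Fix85

lemma len_le {p k : ℕ} (h : p < 10 ^ k) : len p ≤ k := by
  unfold len
  exact (Nat.digits_length_le_iff (by norm_num) _).2 h

lemma exp_lt {p e d : ℕ} (hp : 2 ≤ p) (h : p ^ e < 10 ^ (3 * d)) : e < 10 * d := by
  have h1 : 2 ^ e ≤ p ^ e := Nat.pow_le_pow_left hp e
  have h2 : 10 ^ (3 * d) ≤ 2 ^ (10 * d) := by
    rw [pow_mul, pow_mul]
    exact Nat.pow_le_pow_left (by norm_num) d
  exact (Nat.pow_lt_pow_iff_right (by norm_num : 1 < 2)).1 (by omega)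

lemma dyadic (Y : ℕ) : ∀ K : ℕ, ∑ m ∈ Finset.Ico 1 (2 ^ K), Y / m ≤ K * Y := by
  intro K
  induction K with
  | zero => simp
  | succ K ih =>
    have h1 : 1 ≤ 2 ^ K := Nat.one_le_two_pow
    have h2 : 2 ^ K ≤ 2 ^ (K + 1) := Nat.pow_le_pow_right (by norm_num) (by omega)
    rw [← Finset.sum_Ico_consecutive _ h1 h2]
    have h3 : ∑ m ∈ Finset.Ico (2 ^ K) (2 ^ (K + 1)), Y / m ≤ Y := by
      calc ∑ m ∈ Finset.Ico (2 ^ K) (2 ^ (K + 1)), Y / m
          ≤ ∑ m ∈ Finset.Ico (2 ^ K) (2 ^ (K + 1)), Y / 2 ^ K := by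
            refine Finset.sum_le_sum fun m hm => ?_
            rw [Finset.mem_Ico] at hm
            exact Nat.div_le_div_left hm.1 (by positivity)
        _ = 2 ^ K * (Y / 2 ^ K) := by
            rw [Finset.sum_const, Nat.card_Ico, smul_eq_mul]
            congr 1
            rw [pow_succ]; omega
        _ ≤ Y := Nat.mul_div_le Y _
    calc _ ≤ K * Y + Y := Nat.add_le_add ih h3
      _ = (K + 1) * Y := by ring

/-- the fixed points below `10 ^ (3 d)` -/
def Fx (d : ℕ) : Finset ℕ := (Finset.range (10 ^ (3 * d))).filter (fun n => 2 ≤ n ∧ code n = n)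

lemma mem_Fx {d n : ℕ} : n ∈ Fx d ↔ n < 10 ^ (3 * d) ∧ 2 ≤ n ∧ code n = n := by
  unfold Fx
  rw [Finset.mem_filter, Finset.mem_range]

variable {n m p e w d : ℕ}

lemma Cr.L_lt (h : Cr n m p e w) (hc : code n = n) (hn : n < 10 ^ (3 * d)) : L w < 3 * d := by
  have h1 := h.code3
  have hp := h.hp.pos
  have h2 : 10 ^ L w ≤ n := by
    rw [← hc, h1]
    have : 1 ≤ p * 10 ^ len e + e := by
      have := h.he
      omega
    calc 10 ^ L w = 1 * 10 ^ L w := (one_mul _).symm
      _ ≤ (p * 10 ^ len e + e) * 10 ^ L w := Nat.mul_le_mul_right _ this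
      _ ≤ _ := by omega
  exact (Nat.pow_lt_pow_iff_right (by norm_num : 1 < 10)).1 (by omega)

lemma Cr.pow_lt (h : Cr n m p e w) : p ^ e ≤ n := by
  have hm := h.hm
  have hw := h.hw
  rw [← h.eq]
  calc p ^ e = 1 * p ^ e * 1 := by ring
    _ ≤ m * p ^ e * w := Nat.mul_le_mul (Nat.mul_le_mul_right _ hm) hw

lemma Cr.p_le (h : Cr n m p e w) : p ≤ n :=
  le_trans (Nat.le_self_pow (by have := h.he; omega) p) h.pow_lt

/-- first family: large prime power -/
lemma card1 (d : ℕ) (S : Finset ℕ) (hS : ∀ n ∈ S, n ∈ Fx d ∧ ∃ m p e w, Cr n m p e w ∧ 10 ^ d ≤ p ^ e) :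
    S.card ≤ (7 * d * 10 ^ (2 * d)) * (10 * d * (3 * d + 1)) := by
  classical
  have hY : 10 ^ (2 * d) ≤ 2 ^ (7 * d) := by
    rw [pow_mul, pow_mul]
    exact Nat.pow_le_pow_left (by norm_num) d
  have key : S.card ≤ (((Finset.Ico 1 (2 ^ (7 * d))).sigma (fun m => Finset.Ioc 0 (10 ^ (2 * d) / m))) ×ˢ
      (Finset.range (10 * d) ×ˢ Finset.range (3 * d + 1))).card := by
    refine Finset.card_le_card_of_forall_subsingleton
      (fun n k => code n = n ∧ ∃ p, Cr n k.1.1 p k.2.1 k.1.2 ∧ len p = k.2.2) ?_ ?_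
    · intro n hn
      obtain ⟨hF, m, p, e, w, h, hpe⟩ := hS n hn
      obtain ⟨hlt, h2, hc⟩ := mem_Fx.1 hF
      have hm := h.hm
      have hw := h.hw
      have hmw : m * w < 10 ^ (2 * d) := by
        by_contra hcon
        push Not at hcon
        have h3 : 10 ^ (3 * d) ≤ n := by
          rw [← h.eq]
          calc 10 ^ (3 * d) = 10 ^ (2 * d) * 10 ^ d := by rw [← pow_add]; congr 1; ring
            _ ≤ (m * w) * p ^ e := Nat.mul_le_mul hcon hpe
            _ = _ := by ring
        omega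
      refine ⟨⟨⟨m, w⟩, (e, len p)⟩, ?_, hc, p, h, rfl⟩
      rw [Finset.mem_product, Finset.mem_sigma, Finset.mem_product, Finset.mem_Ico, Finset.mem_Ioc,
        Finset.mem_range, Finset.mem_range]
      refine ⟨⟨⟨hm, ?_⟩, hw, ?_⟩, ?_, ?_⟩
      · have : m ≤ m * w := Nat.le_mul_of_pos_right m hw
        show m < 2 ^ (7 * d)
        omega
      · show w ≤ 10 ^ (2 * d) / m
        rw [Nat.le_div_iff_mul_le hm]
        rw [mul_comm w m]; omega
      · exact exp_lt h.hp.two_le (lt_of_le_of_lt h.pow_lt hlt)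
      · show len p < 3 * d + 1
        have := len_le (lt_of_le_of_lt h.p_le hlt)
        omega
    · intro k _ n hn n' hn'
      obtain ⟨_, hc, p, h, hl⟩ := hn
      obtain ⟨_, hc', p', h', hl'⟩ := hn'
      obtain ⟨⟨m, w⟩, e, l⟩ := k
      simp only at h h' hl hl'
      have e1 := h.code3
      have e2 := h'.code3
      rw [hc, ← h.eq] at e1
      rw [hc', ← h'.eq] at e2
      rw [hl] at e1
      rw [hl'] at e2
      have he := h.he
      have f1 : (m * w) * p ^ e =
          (code m * 10 ^ (l + len e + L w) + e * 10 ^ L w + code w) + 10 ^ (len e + L w) * p := by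
        rw [pow_add 10 (len e)]
        calc (m * w) * p ^ e = m * p ^ e * w := by ring
          _ = _ := e1
          _ = _ := by ring
      have f2 : (m * w) * p' ^ e =
          (code m * 10 ^ (l + len e + L w) + e * 10 ^ L w + code w) + 10 ^ (len e + L w) * p' := by
        rw [pow_add 10 (len e)]
        calc (m * w) * p' ^ e = m * p' ^ e * w := by ring
          _ = _ := e2
          _ = _ := by ring
      have hC : 0 < code m * 10 ^ (l + len e + L w) + e * 10 ^ L w + code w := by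
        have : 0 < e * 10 ^ L w := Nat.mul_pos he (by positivity)
        omega
      have hpp : p = p' := by
        rcases Nat.lt_trichotomy p p' with hlt | heq | hgt
        · exact (uniq3 he hC h.hp.pos f1 f2 hlt).elim
        · exact heq
        · exact (uniq3 he hC h'.hp.pos f2 f1 hgt).elim
      rw [← h.eq, ← h'.eq, hpp]
  refine key.trans ?_
  rw [Finset.card_product, Finset.card_product, Finset.card_range, Finset.card_range,
    Finset.card_sigma]
  refine Nat.mul_le_mul_right _ ?_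
  have : ∑ m ∈ Finset.Ico 1 (2 ^ (7 * d)), (Finset.Ioc 0 (10 ^ (2 * d) / m)).card
      = ∑ m ∈ Finset.Ico 1 (2 ^ (7 * d)), 10 ^ (2 * d) / m := by
    refine Finset.sum_congr rfl fun m _ => ?_
    rw [Nat.card_Ioc, Nat.sub_zero]
  rw [this]
  exact dyadic _ _

/-- second family: small front part -/
lemma card2 (d : ℕ) (S : Finset ℕ) (hS : ∀ n ∈ S, n ∈ Fx d ∧ ∃ m p e w, Cr n m p e w ∧ m * p ^ e < 10 ^ (2 * d)) :
    S.card ≤ 10 ^ (2 * d) * (3 * d + 1) := by
  classical
  have key : S.card ≤ (Finset.range (10 ^ (2 * d)) ×ˢ Finset.range (3 * d + 1)).card := by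
    refine Finset.card_le_card_of_forall_subsingleton
      (fun n k => code n = n ∧ ∃ m p e w, Cr n m p e w ∧ m * p ^ e = k.1 ∧ L w = k.2) ?_ ?_
    · intro n hn
      obtain ⟨hF, m, p, e, w, h, hM⟩ := hS n hn
      obtain ⟨hlt, h2, hc⟩ := mem_Fx.1 hF
      refine ⟨(m * p ^ e, L w), ?_, hc, m, p, e, w, h, rfl, rfl⟩
      rw [Finset.mem_product, Finset.mem_range, Finset.mem_range]
      refine ⟨hM, ?_⟩
      have := h.L_lt hc hlt
      show L w < 3 * d + 1
      omega
    · intro k _ n hn n' hn'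
      obtain ⟨_, hc, m, p, e, w, h, hM, hL⟩ := hn
      obtain ⟨_, hc', m', p', e', w', h', hM', hL'⟩ := hn'
      have e1 := h.code1
      have e2 := h'.code1
      have l1 := code_lt w
      have l2 := code_lt w'
      rw [hc, hM, hL] at e1
      rw [hc', hM', hL'] at e2
      rw [hL] at l1
      rw [hL'] at l2
      refine uniq1 e1 e2 l1 l2 ?_ ?_ ?_
      · rw [← hM, ← h.eq]; exact Dvd.intro _ rfl
      · rw [← hM', ← h'.eq]; exact Dvd.intro _ rfl
      · rw [← hM, ← hL]; exact h.c2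
  refine key.trans ?_
  rw [Finset.card_product, Finset.card_range, Finset.card_range]

/-- third family: small rear part, prime to ten -/
lemma card3 (d : ℕ) (S : Finset ℕ) (hS : ∀ n ∈ S, n ∈ Fx d ∧
    ∃ m p e w, Cr n m p e w ∧ 5 < p ∧ p ^ e * w < 10 ^ (2 * d)) :
    S.card ≤ 10 ^ (2 * d) := by
  classical
  have key : S.card ≤ (Finset.range (10 ^ (2 * d))).card := by
    refine Finset.card_le_card_of_forall_subsingleton
      (fun n k => code n = n ∧ ∃ m p e w, Cr n m p e w ∧ 5 < p ∧ p ^ e * w = k) ?_ ?_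
    · intro n hn
      obtain ⟨hF, m, p, e, w, h, h5, hM⟩ := hS n hn
      obtain ⟨hlt, h2, hc⟩ := mem_Fx.1 hF
      exact ⟨p ^ e * w, Finset.mem_range.2 hM, hc, m, p, e, w, h, h5, rfl⟩
    · intro k _ n hn n' hn'
      obtain ⟨_, hc, m, p, e, w, h, h5, hM⟩ := hn
      obtain ⟨_, hc', m', p', e', w', h', h5', hM'⟩ := hn'
      have e1 := h.code2
      have e2 := h'.code2
      have c1 := h.c1
      have c2 := h'.c1
      rw [hM] at e1 c1
      rw [hM'] at e2 c2
      have g1 : n = m * k := by rw [← h.eq, mul_assoc, hM]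
      have g2 : n' = m' * k := by rw [← h'.eq, mul_assoc, hM']
      rw [hc] at e1
      rw [hc'] at e2
      have hcop : k.Coprime 10 := by
        rw [Nat.coprime_iff_gcd_eq_one]
        by_contra hne
        obtain ⟨r, hr, hrd⟩ := Nat.exists_prime_and_dvd hne
        have hr1 : r ∣ k := hrd.trans (Nat.gcd_dvd_left _ _)
        have hr2 : r ∣ 10 := hrd.trans (Nat.gcd_dvd_right _ _)
        have hr3 : r ≤ 5 := by
          have h10 : (10 : ℕ) = 2 * 5 := by norm_num
          rw [h10] at hr2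
          rcases (Nat.Prime.dvd_mul hr).1 hr2 with h' | h'
          · have := Nat.le_of_dvd (by norm_num) h'; omega
          · exact Nat.le_of_dvd (by norm_num) h'
        have hk : 0 < k := by
          rw [← hM]; exact Nat.mul_pos (pow_pos h.hp.pos e) h.hw
        have hmem : r ∈ (p ^ e * w).primeFactors := by
          rw [Nat.mem_primeFactors]
          exact ⟨hr, by rw [hM]; exact hr1, by rw [hM]; exact hk.ne'⟩
        rcases mem_pow_mul h.hw h.hp h.he hmem with h' | h'
        · omega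
        · have := h.hi r h'; omega
      have := uniq2 hcop (g1 ▸ e1) (g2 ▸ e2) c1 c2
      rw [g1, g2, this]
  exact key.trans (Finset.card_range _).le


lemma smooth_eq {M : ℕ} (hM : 0 < M) (h : ∀ q ∈ M.primeFactors, q ≤ 5) :
    ∃ a b c, M = 2 ^ a * 3 ^ b * 5 ^ c := by
  refine ⟨M.factorization 2, M.factorization 3, M.factorization 5, ?_⟩
  have hsub : M.primeFactors ⊆ ({2, 3, 5} : Finset ℕ) := by
    intro q hq
    have h5 := h q hq
    have hp := (Nat.mem_primeFactors.1 hq).1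
    interval_cases q
    · exact absurd hp (by norm_num)
    · exact absurd hp (by norm_num)
    · simp
    · simp
    · exact absurd hp (by norm_num)
    · simp
  have h1 := Nat.prod_factorization_pow_eq_self hM.ne'
  rw [Finsupp.prod_of_support_subset _ (s := ({2, 3, 5} : Finset ℕ))
    (by rw [Nat.support_factorization]; exact hsub) _ (by simp)] at h1
  rw [← h1]
  conv_rhs => rw [h1]
  rw [Finset.prod_insert (by norm_num), Finset.prod_insert (by norm_num), Finset.prod_singleton,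
    mul_assoc]

/-- fourth family: crossing prime at most five -/
lemma card4 (d : ℕ) (S : Finset ℕ) (hS : ∀ n ∈ S, n ∈ Fx d ∧ ∃ m p e w, Cr n m p e w ∧ p ≤ 5) :
    S.card ≤ (10 * d * (10 * d * (10 * d))) * (3 * d + 1) := by
  classical
  have key : S.card ≤ ((Finset.range (10 * d) ×ˢ (Finset.range (10 * d) ×ˢ Finset.range (10 * d))) ×ˢ
      Finset.range (3 * d + 1)).card := by
    refine Finset.card_le_card_of_forall_subsingleton
      (fun n k => code n = n ∧ ∃ m p e w, Cr n m p e w ∧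
        m * p ^ e = 2 ^ k.1.1 * 3 ^ k.1.2.1 * 5 ^ k.1.2.2 ∧ L w = k.2) ?_ ?_
    · intro n hn
      obtain ⟨hF, m, p, e, w, h, hp5⟩ := hS n hn
      obtain ⟨hlt, h2, hc⟩ := mem_Fx.1 hF
      have hMpos : 0 < m * p ^ e := Nat.mul_pos h.hm (pow_pos h.hp.pos e)
      obtain ⟨a, b, c, habc⟩ := smooth_eq hMpos (by
        intro q hq
        rcases mem_mul_pow h.hm h.hp h.he hq with h' | h'
        · have := h.lo q h'; omega
        · omega)
      have hMn : m * p ^ e ≤ n := by
        rw [← h.eq]; exact Nat.le_mul_of_pos_right _ h.hw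
      have pa : 0 < 2 ^ a := by positivity
      have pb : 0 < 3 ^ b := by positivity
      have pc : 0 < 5 ^ c := by positivity
      have ba : 2 ^ a ≤ 2 ^ a * 3 ^ b * 5 ^ c := by
        calc 2 ^ a = 2 ^ a * 1 * 1 := by ring
          _ ≤ _ := Nat.mul_le_mul (Nat.mul_le_mul_left _ pb) pc
      have bb : 3 ^ b ≤ 2 ^ a * 3 ^ b * 5 ^ c := by
        calc 3 ^ b = 1 * 3 ^ b * 1 := by ring
          _ ≤ _ := Nat.mul_le_mul (Nat.mul_le_mul_right _ pa) pc
      have bc : 5 ^ c ≤ 2 ^ a * 3 ^ b * 5 ^ c := by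
        calc 5 ^ c = 1 * 1 * 5 ^ c := by ring
          _ ≤ _ := Nat.mul_le_mul_right _ (Nat.mul_le_mul pa pb)
      refine ⟨((a, b, c), L w), ?_, hc, m, p, e, w, h, habc, rfl⟩
      rw [Finset.mem_product, Finset.mem_product, Finset.mem_product, Finset.mem_range,
        Finset.mem_range, Finset.mem_range, Finset.mem_range]
      refine ⟨⟨?_, ?_, ?_⟩, ?_⟩
      · show a < 10 * d
        exact exp_lt (p := 2) (by norm_num) (by omega)
      · show b < 10 * d
        exact exp_lt (p := 3) (by norm_num) (by omega)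
      · show c < 10 * d
        exact exp_lt (p := 5) (by norm_num) (by omega)
      · have := h.L_lt hc hlt
        show L w < 3 * d + 1
        omega
    · intro k _ n hn n' hn'
      obtain ⟨_, hc, m, p, e, w, h, hM, hL⟩ := hn
      obtain ⟨_, hc', m', p', e', w', h', hM', hL'⟩ := hn'
      have e1 := h.code1
      have e2 := h'.code1
      have l1 := code_lt w
      have l2 := code_lt w'
      rw [hc, hM, hL] at e1
      rw [hc', hM', hL'] at e2
      rw [hL] at l1
      rw [hL'] at l2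
      refine uniq1 e1 e2 l1 l2 ?_ ?_ ?_
      · rw [← hM, ← h.eq]; exact Dvd.intro _ rfl
      · rw [← hM', ← h'.eq]; exact Dvd.intro _ rfl
      · rw [← hM, ← hL]; exact h.c2
  refine key.trans ?_
  simp only [Finset.card_product, Finset.card_range]
  exact le_rfl

/-- the count -/
theorem count_le (d : ℕ) : (Fx d).card ≤ 5000 * (d + 1) ^ 3 * 10 ^ (2 * d) := by
  classical
  set S1 := (Fx d).filter (fun n => ∃ m p e w, Cr n m p e w ∧ 10 ^ d ≤ p ^ e) with h1
  set S2 := (Fx d).filter (fun n => ∃ m p e w, Cr n m p e w ∧ m * p ^ e < 10 ^ (2 * d)) with h2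
  set S3 := (Fx d).filter (fun n => ∃ m p e w, Cr n m p e w ∧ 5 < p ∧ p ^ e * w < 10 ^ (2 * d)) with h3
  set S4 := (Fx d).filter (fun n => ∃ m p e w, Cr n m p e w ∧ p ≤ 5) with h4
  have hsub : Fx d ⊆ S1 ∪ (S2 ∪ (S3 ∪ S4)) := by
    intro n hn
    obtain ⟨hlt, hn2, hc⟩ := mem_Fx.1 hn
    obtain ⟨m, p, e, w, h⟩ := exists_cr hn2 hc
    rw [Finset.mem_union, Finset.mem_union, Finset.mem_union, h1, h2, h3, h4, Finset.mem_filter,
      Finset.mem_filter, Finset.mem_filter, Finset.mem_filter]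
    by_cases c1 : 10 ^ d ≤ p ^ e
    · exact Or.inl ⟨hn, m, p, e, w, h, c1⟩
    by_cases c4 : p ≤ 5
    · exact Or.inr (Or.inr (Or.inr ⟨hn, m, p, e, w, h, c4⟩))
    by_cases c2 : m * p ^ e < 10 ^ (2 * d)
    · exact Or.inr (Or.inl ⟨hn, m, p, e, w, h, c2⟩)
    by_cases c3 : p ^ e * w < 10 ^ (2 * d)
    · exact Or.inr (Or.inr (Or.inl ⟨hn, m, p, e, w, h, by omega, c3⟩))
    exfalso
    push Not at c1 c2 c3
    have g1 : 10 ^ (2 * d) * 10 ^ (2 * d) ≤ (m * p ^ e) * (p ^ e * w) := Nat.mul_le_mul c2 c3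
    have g2 : (m * p ^ e) * (p ^ e * w) = n * p ^ e := by rw [← h.eq]; ring
    have g3 : n * p ^ e < 10 ^ (3 * d) * 10 ^ d :=
      Nat.mul_lt_mul'' hlt c1
    have g4 : 10 ^ (2 * d) * 10 ^ (2 * d) = 10 ^ (3 * d) * 10 ^ d := by
      rw [← pow_add, ← pow_add]; congr 1; ring
    omega
  have b1 := card1 d S1 (fun n hn => Finset.mem_filter.1 hn)
  have b2 := card2 d S2 (fun n hn => Finset.mem_filter.1 hn)
  have b3 := card3 d S3 (fun n hn => Finset.mem_filter.1 hn)
  have b4 := card4 d S4 (fun n hn => Finset.mem_filter.1 hn)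
  have hb : (Fx d).card ≤ S1.card + (S2.card + (S3.card + S4.card)) := by
    refine (Finset.card_le_card hsub).trans ((Finset.card_union_le _ _).trans ?_)
    refine Nat.add_le_add_left ((Finset.card_union_le _ _).trans ?_) _
    exact Nat.add_le_add_left (Finset.card_union_le _ _) _
  have hd : d ≤ 10 ^ (2 * d) := by
    have h1 : d < 10 ^ d := Nat.lt_pow_self (by norm_num)
    have h2 : 10 ^ d ≤ 10 ^ (2 * d) := Nat.pow_le_pow_right (by norm_num) (by omega)
    omega
  have hX : 1 ≤ 10 ^ (2 * d) := Nat.one_le_pow _ _ (by norm_num)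
  generalize 10 ^ (2 * d) = X at *
  have t4 : (10 * d * (10 * d * (10 * d))) * (3 * d + 1) ≤ 4000 * (d + 1) ^ 3 * X := by
    calc (10 * d * (10 * d * (10 * d))) * (3 * d + 1) = 3000 * d ^ 3 * d + 1000 * d ^ 3 * 1 := by ring
      _ ≤ 3000 * d ^ 3 * X + 1000 * d ^ 3 * X :=
        Nat.add_le_add (Nat.mul_le_mul_left _ hd) (Nat.mul_le_mul_left _ hX)
      _ = 4000 * d ^ 3 * X := by ring
      _ ≤ 4000 * (d + 1) ^ 3 * X :=
        Nat.mul_le_mul_right _ (Nat.mul_le_mul_left _ (Nat.pow_le_pow_left (by omega) 3))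
  have t1 : (7 * d * X) * (10 * d * (3 * d + 1)) + (X * (3 * d + 1) + X) ≤ 1000 * (d + 1) ^ 3 * X := by
    have e1 : (7 * d * X) * (10 * d * (3 * d + 1)) + (X * (3 * d + 1) + X)
        = (210 * d ^ 3 + 70 * d ^ 2 + 3 * d + 2) * X := by ring
    have e2 : 210 * d ^ 3 + 70 * d ^ 2 + 3 * d + 2 ≤ 1000 * (d + 1) ^ 3 := by
      have : 1000 * (d + 1) ^ 3 = 1000 * d ^ 3 + 3000 * d ^ 2 + 3000 * d + 1000 := by ring
      rw [this]
      have : d ^ 3 ≥ 0 := Nat.zero_le _
      omega
    rw [e1]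
    exact Nat.mul_le_mul_right _ e2
  calc (Fx d).card ≤ S1.card + (S2.card + (S3.card + S4.card)) := hb
    _ ≤ (7 * d * X) * (10 * d * (3 * d + 1)) + (X * (3 * d + 1) +
        (X + (10 * d * (10 * d * (10 * d))) * (3 * d + 1))) :=
      Nat.add_le_add b1 (Nat.add_le_add b2 (Nat.add_le_add b3 b4))
    _ = ((7 * d * X) * (10 * d * (3 * d + 1)) + (X * (3 * d + 1) + X)) +
        (10 * d * (10 * d * (10 * d))) * (3 * d + 1) := by ring
    _ ≤ 1000 * (d + 1) ^ 3 * X + 4000 * (d + 1) ^ 3 * X := Nat.add_le_add t1 t4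
    _ = 5000 * (d + 1) ^ 3 * X := by ring

end Pool.Agent.Fix85
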