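import Pool.Agent.Fix85.Code

namespace Pool.Agent.Fix85

/-- the crossing prime -/
structure Cr (n m p e w : ℕ) : Prop where
  eq : m * p ^ e * w = n
  hp : p.Prime
  he : 1 ≤ e
  hm : 0 < m
  hw : 0 < w
  lo : ∀ q ∈ m.primeFactors, q < p
  hi : ∀ q ∈ w.primeFactors, p < q
  c1 : m < 10 ^ L (p ^ e * w)
  c2 : 10 ^ L w ≤ m * p ^ e

lemma sep_pow {m p e : ℕ} (lo : ∀ q ∈ m.primeFactors, q < p) (hp : p.Prime) (he : 1 ≤ e) :
    Sep m (p ^ e) := by
  intro q hq r hr
  rw [Nat.primeFactors_prime_pow (by omega) hp, Finset.mem_singleton] at hr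
  rw [hr]; exact lo q hq

lemma pow_sep {w p e : ℕ} (hi : ∀ q ∈ w.primeFactors, p < q) (hp : p.Prime) (he : 1 ≤ e) :
    Sep (p ^ e) w := by
  intro q hq r hr
  rw [Nat.primeFactors_prime_pow (by omega) hp, Finset.mem_singleton] at hq
  rw [hq]; exact hi r hr

lemma mem_mul_pow {m p e q : ℕ} (hm : 0 < m) (hp : p.Prime) (he : 1 ≤ e)
    (hq : q ∈ (m * p ^ e).primeFactors) : q ∈ m.primeFactors ∨ q = p := by
  rw [Nat.primeFactors_mul hm.ne' (pow_pos hp.pos e).ne', Finset.mem_union,
    Nat.primeFactors_prime_pow (by omega) hp, Finset.mem_singleton] at hq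
  exact hq

lemma mem_pow_mul {w p e q : ℕ} (hw : 0 < w) (hp : p.Prime) (he : 1 ≤ e)
    (hq : q ∈ (p ^ e * w).primeFactors) : q = p ∨ q ∈ w.primeFactors := by
  rw [Nat.primeFactors_mul (pow_pos hp.pos e).ne' hw.ne', Finset.mem_union,
    Nat.primeFactors_prime_pow (by omega) hp, Finset.mem_singleton] at hq
  exact hq

lemma cross : ∀ w : ℕ, 0 < w → ∀ m : ℕ, 0 < m → Sep m w → m < 10 ^ L w →
    ∃ m1 p e w1, Cr (m * w) m1 p e w1 := by
  intro w
  induction w using Nat.strong_induction_on with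
  | _ w ih =>
    intro hw m hm hsep hlt
    by_cases h1 : w = 1
    · subst h1
      rw [L_one] at hlt
      simp at hlt
      omega
    · have hp : w.minFac.Prime := Nat.minFac_prime h1
      obtain ⟨e, w', hnd, he⟩ := Nat.exists_eq_pow_mul_and_not_dvd hw.ne' w.minFac hp.ne_one
      generalize hpp : w.minFac = p at *
      have hw' : 0 < w' := Nat.pos_of_ne_zero (by rintro rfl; simp at hnd)
      have he1 : 1 ≤ e := by
        rcases Nat.eq_zero_or_pos e with h0 | h0
        · exfalso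
          subst h0
          have : p ∣ w := hpp ▸ Nat.minFac_dvd w
          rw [he] at this
          simp at this
          exact hnd this
        · exact h0
      have hpw : p ∈ w.primeFactors := by
        rw [Nat.mem_primeFactors]
        exact ⟨hp, hpp ▸ Nat.minFac_dvd w, hw.ne'⟩
      have lo : ∀ q ∈ m.primeFactors, q < p := fun q hq => hsep q hq p hpw
      have hi : ∀ q ∈ w'.primeFactors, p < q := by
        intro q hq
        rw [Nat.mem_primeFactors] at hq
        have h2 : p ≤ q := by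
          rw [← hpp]
          exact Nat.minFac_le_of_dvd hq.1.two_le (by rw [he]; exact Dvd.dvd.mul_left hq.2.1 _)
        rcases Nat.eq_or_lt_of_le h2 with h3 | h3
        · exact absurd (h3 ▸ hq.2.1) hnd
        · exact h3
      by_cases hc : 10 ^ L w' ≤ m * p ^ e
      · refine ⟨m, p, e, w', ⟨?_, hp, he1, hm, hw', lo, hi, ?_, hc⟩⟩
        · rw [mul_assoc, ← he]
        · rw [← he]; exact hlt
      · have hlt' : w' < w := by
          rw [he]
          have : 2 ≤ p ^ e := le_trans hp.two_le (Nat.le_self_pow (by omega) p)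
          nlinarith
        have hpe : 0 < p ^ e := pow_pos hp.pos e
        obtain ⟨m1, q, f, w1, hcr⟩ := ih w' hlt' hw' (m * p ^ e) (Nat.mul_pos hm hpe)
          (by
            intro q hq r hr
            rcases mem_mul_pow hm hp he1 hq with h | h
            · exact lt_trans (lo q h) (hi r hr)
            · rw [h]; exact hi r hr) (by omega)
        refine ⟨m1, q, f, w1, ?_⟩
        have e2 : m * w = m * p ^ e * w' := by rw [mul_assoc, ← he]
        rw [e2]; exact hcr

/-- a fixed point has a crossing prime -/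
lemma exists_cr {n : ℕ} (hn : 2 ≤ n) (h : code n = n) : ∃ m p e w, Cr n m p e w := by
  have h1 : 1 < 10 ^ L n := by
    have := code_lt n
    omega
  have := cross n (by omega) 1 one_pos (by intro p hp; simp at hp) h1
  simpa using this

variable {n m p e w : ℕ}

lemma Cr.code1 (h : Cr n m p e w) : code n = code (m * p ^ e) * 10 ^ L w + code w := by
  rw [← h.eq]
  refine code_mul (Nat.mul_pos h.hm (pow_pos h.hp.pos e)).ne' h.hw.ne' ?_
  intro q hq r hr
  rcases mem_mul_pow h.hm h.hp h.he hq with h' | h'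
  · exact lt_trans (h.lo q h') (h.hi r hr)
  · rw [h']; exact h.hi r hr

lemma Cr.code2 (h : Cr n m p e w) :
    code n = code m * 10 ^ L (p ^ e * w) + code (p ^ e * w) := by
  rw [← h.eq, mul_assoc]
  refine code_mul h.hm.ne' (Nat.mul_pos (pow_pos h.hp.pos e) h.hw).ne' ?_
  intro q hq r hr
  rcases mem_pow_mul h.hw h.hp h.he hr with h' | h'
  · rw [h']; exact h.lo q hq
  · exact lt_trans (h.lo q hq) (h.hi r h')

lemma Cr.code3 (h : Cr n m p e w) :
    code n = code m * 10 ^ (len p + len e + L w) + ((p * 10 ^ len e + e) * 10 ^ L w + code w) := by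
  rw [h.code2, L_mul (pow_pos h.hp.pos e).ne' h.hw.ne' (pow_sep h.hi h.hp h.he),
    code_mul (pow_pos h.hp.pos e).ne' h.hw.ne' (pow_sep h.hi h.hp h.he),
    L_prime_pow h.hp h.he, code_prime_pow h.hp h.he]

/-- uniqueness from `m p^e` and the length of the rest -/
lemma uniq1 {n' M w' : ℕ} {Lw : ℕ} (h1 : n = code M * 10 ^ Lw + code w) (h2 : n' = code M * 10 ^ Lw + code w')
    (l1 : code w < 10 ^ Lw) (l2 : code w' < 10 ^ Lw) (d1 : M ∣ n) (d2 : M ∣ n')
    (hM : 10 ^ Lw ≤ M) : n = n' := by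
  rcases le_total n n' with h | h
  · have hd : M ∣ n' - n := Nat.dvd_sub d2 d1
    have : n' - n < M := by omega
    have := Nat.eq_zero_of_dvd_of_lt hd this
    omega
  · have hd : M ∣ n - n' := Nat.dvd_sub d1 d2
    have : n - n' < M := by omega
    have := Nat.eq_zero_of_dvd_of_lt hd this
    omega

/-- uniqueness from the rest `p^e w` -/
lemma uniq2 {m m' W A A' : ℕ} {l : ℕ} (hc : W.Coprime 10) (h1 : m * W = A * 10 ^ l + code W)
    (h2 : m' * W = A' * 10 ^ l + code W) (l1 : m < 10 ^ l) (l2 : m' < 10 ^ l) : m = m' := by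
  have h : m * W ≡ m' * W [MOD 10 ^ l] := by
    rw [h1, h2]
    have a1 : A * 10 ^ l + code W ≡ 0 + code W [MOD 10 ^ l] :=
      Nat.ModEq.add_right _ ((Nat.modEq_zero_iff_dvd).2 (Dvd.intro_left _ rfl))
    have a2 : A' * 10 ^ l + code W ≡ 0 + code W [MOD 10 ^ l] :=
      Nat.ModEq.add_right _ ((Nat.modEq_zero_iff_dvd).2 (Dvd.intro_left _ rfl))
    exact a1.trans a2.symm
  have hg : Nat.gcd (10 ^ l) W = 1 := by
    have : Nat.Coprime (10 ^ l) W := (Nat.Coprime.pow_left l hc.symm)
    exact this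
  have h' := Nat.ModEq.cancel_right_of_coprime hg h
  exact Nat.ModEq.eq_of_lt_of_lt h' l1 l2

/-- uniqueness of the prime from the rest -/
lemma uniq3 {k e p p' c C : ℕ} (he : 1 ≤ e) (hC : 0 < C) (hp : 0 < p)
    (h1 : k * p ^ e = C + 10 ^ c * p) (h2 : k * p' ^ e = C + 10 ^ c * p') (hlt : p < p') : False := by
  obtain ⟨f, rfl⟩ : ∃ f, e = f + 1 := ⟨e - 1, by omega⟩
  have h3 : 10 ^ c < k * p ^ f := by
    by_contra hcon
    push Not at hcon
    have : k * p ^ (f + 1) ≤ 10 ^ c * p := by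
      calc k * p ^ (f + 1) = k * p ^ f * p := by ring
        _ ≤ 10 ^ c * p := Nat.mul_le_mul_right _ hcon
    omega
  have h4 : p ^ f ≤ p' ^ f := Nat.pow_le_pow_left hlt.le f
  obtain ⟨t, rfl⟩ : ∃ t, p' = p + t := ⟨p' - p, by omega⟩
  have ht : 0 < t := by omega
  have h5 : k * p ^ (f + 1) + k * p ^ f * t ≤ k * (p + t) ^ (f + 1) := by
    calc k * p ^ (f + 1) + k * p ^ f * t = k * (p ^ f * (p + t)) := by ring
      _ ≤ k * ((p + t) ^ f * (p + t)) := Nat.mul_le_mul_left _ (Nat.mul_le_mul_right _ h4)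
      _ = _ := by ring
  have h6 : 10 ^ c * t < k * p ^ f * t := Nat.mul_lt_mul_of_pos_right h3 ht
  have h7 : 10 ^ c * (p + t) = 10 ^ c * p + 10 ^ c * t := by ring
  rw [h7] at h2
  omega

end Pool.Agent.Fix85
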