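import Pool.Agent.Fix85.Code

namespace Pool.Agent.Fix85

lemma pow_len_le {y : ℕ} (hy : y ≠ 0) : 10 ^ len y ≤ 10 * y :=
  Nat.base_pow_length_digits_le 10 y (by norm_num) hy

lemma pow_L_le {n : ℕ} (hn : 2 ≤ n) : 10 ^ L n ≤ 10 * code n := by
  have hne : n.primeFactors.sort (· ≤ ·) ≠ [] := by
    intro h
    have h1 : n.primeFactors = ∅ := by
      have := congrArg List.toFinset h
      rwa [Finset.sort_toFinset] at this
    rw [Nat.primeFactors_eq_empty] at h1
    omega
  obtain ⟨p, l, hl⟩ := List.exists_cons_of_ne_nil hne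
  have hp : p ∈ n.primeFactors := by
    have : p ∈ n.primeFactors.sort (· ≤ ·) := by rw [hl]; simp
    rwa [Finset.mem_sort] at this
  have hp0 : p ≠ 0 := (Nat.mem_primeFactors.1 hp).1.ne_zero
  have hlst : lst n = p :: (n.factorization p :: l.flatMap (fun p => [p, n.factorization p])) := by
    unfold lst
    rw [hl]
    simp
  unfold L code
  rw [hlst]
  generalize (n.factorization p :: l.flatMap (fun p => [p, n.factorization p])) = t
  rw [List.foldl_cons, foldl_cat]
  have h1 : cat 0 p = p := by simp [cat]
  have h2 : tot (p :: t) = len p + tot t := by simp [tot]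
  rw [h1, h2, pow_add]
  have := pow_len_le hp0
  calc 10 ^ len p * 10 ^ tot t ≤ (10 * p) * 10 ^ tot t := Nat.mul_le_mul_right _ this
    _ = 10 * (p * 10 ^ tot t) := by ring
    _ ≤ 10 * (p * 10 ^ tot t + List.foldl cat 0 t) := Nat.mul_le_mul_left _ (Nat.le_add_right _ _)

lemma tot_flatMap (f : ℕ → ℕ) (l : List ℕ) :
    tot (l.flatMap (fun p => [p, f p])) = (l.map (fun p => len p + len (f p))).sum := by
  induction l with
  | nil => simp [tot]
  | cons p l ih =>
    rw [List.flatMap_cons, tot_append, ih]
    simp [tot]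

lemma len_pos {y : ℕ} (hy : y ≠ 0) : 1 ≤ len y := by
  unfold len
  rw [Nat.succ_le_iff, List.length_pos_iff]
  exact Nat.digits_ne_nil_iff_ne_zero.2 hy

lemma L_eq (n : ℕ) : L n = ∑ p ∈ n.primeFactors, (len p + len (n.factorization p)) := by
  unfold L lst
  rw [tot_flatMap]
  have h := List.sum_toFinset (fun p => len p + len (n.factorization p))
    (Finset.sort_nodup n.primeFactors (· ≤ ·))
  rw [Finset.sort_toFinset] at h
  exact h.symm

/-- solutions have a large ratio `n / rad n` -/
theorem ratio {n : ℕ} (hn : 2 ≤ n) (h : code n = n) :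
    10 ^ n.primeFactors.card * ∏ p ∈ n.primeFactors, p < 10 * n := by
  have h1 := pow_L_le hn
  rw [h, L_eq, ← Finset.prod_pow_eq_pow_sum] at h1
  refine lt_of_lt_of_le ?_ h1
  rw [← Finset.prod_const, ← Finset.prod_mul_distrib]
  have hne : n.primeFactors.Nonempty := by
    rw [Nat.nonempty_primeFactors]; omega
  refine Finset.prod_lt_prod_of_nonempty ?_ ?_ hne
  · intro p hp
    have := (Nat.mem_primeFactors.1 hp).1.pos
    positivity
  · intro p hp
    have hp' := Nat.mem_primeFactors.1 hp
    have hf : n.factorization p ≠ 0 := by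
      have : p ∈ n.factorization.support := by rw [Nat.support_factorization]; exact hp
      exact Finsupp.mem_support_iff.1 this
    have e1 := lt_pow_len p
    have e2 : 10 ^ 1 ≤ 10 ^ len (n.factorization p) :=
      Nat.pow_le_pow_right (by norm_num) (len_pos hf)
    rw [pow_add]
    calc 10 * p = p * 10 ^ 1 := by ring
      _ < 10 ^ len p * 10 ^ 1 := Nat.mul_lt_mul_of_pos_right e1 (by norm_num)
      _ ≤ _ := Nat.mul_le_mul_left _ e2

/-- the bound in the other direction -/
theorem upper {n : ℕ} (h : code n = n) :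
    n < ∏ p ∈ n.primeFactors, (100 * p * n.factorization p) := by
  have h1 := code_lt n
  rw [h, L_eq, ← Finset.prod_pow_eq_pow_sum] at h1
  refine lt_of_lt_of_le h1 ?_
  refine Finset.prod_le_prod' ?_
  intro p hp
  have hp' := Nat.mem_primeFactors.1 hp
  have hf : n.factorization p ≠ 0 := by
    have : p ∈ n.factorization.support := by rw [Nat.support_factorization]; exact hp
    exact Finsupp.mem_support_iff.1 this
  have e1 := pow_len_le hp'.1.ne_zero
  have e2 := pow_len_le hf
  rw [pow_add]
  calc 10 ^ len p * 10 ^ len (n.factorization p) ≤ (10 * p) * (10 * n.factorization p) :=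
        Nat.mul_le_mul e1 e2
    _ = 100 * p * n.factorization p := by ring

/-- no solution is squarefree -/
theorem not_squarefree {n : ℕ} (hn : 2 ≤ n) (h : code n = n) : ¬ Squarefree n := by
  intro hs
  have h1 := ratio hn h
  rw [Nat.prod_primeFactors_of_squarefree hs] at h1
  have hne : n.primeFactors.Nonempty := by
    rw [Nat.nonempty_primeFactors]; omega
  have hc : 1 ≤ n.primeFactors.card := Finset.card_pos.2 hne
  have h2 : 10 ^ 1 ≤ 10 ^ n.primeFactors.card := Nat.pow_le_pow_right (by norm_num) hc
  have h3 : 10 ^ 1 * n ≤ 10 ^ n.primeFactors.card * n := Nat.mul_le_mul_right _ h2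
  omega

/-- not every prime of a solution has a large exponent -/
theorem exists_small {n : ℕ} (hn : 2 ≤ n) (h : code n = n) :
    ∃ p ∈ n.primeFactors, p ^ (n.factorization p - 1) < 100 * n.factorization p := by
  by_contra hc
  push Not at hc
  have h1 := upper h
  have h2 : ∏ p ∈ n.primeFactors, (100 * p * n.factorization p) ≤
      ∏ p ∈ n.primeFactors, p ^ n.factorization p := by
    refine Finset.prod_le_prod' ?_
    intro p hp
    have hf : n.factorization p ≠ 0 := by
      have : p ∈ n.factorization.support := by rw [Nat.support_factorization]; exact hp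
      exact Finsupp.mem_support_iff.1 this
    have h3 := Nat.mul_le_mul_right p (hc p hp)
    rw [← pow_succ, Nat.sub_add_cancel (Nat.one_le_iff_ne_zero.2 hf)] at h3
    calc 100 * p * n.factorization p = 100 * n.factorization p * p := by ring
      _ ≤ _ := h3
  have h4 : ∏ p ∈ n.primeFactors, p ^ n.factorization p = n := by
    have := Nat.prod_factorization_pow_eq_self (n := n) (by omega)
    rw [Finsupp.prod, Nat.support_factorization] at this
    exact this
  omega

lemma four_pow {k : ℕ} (hk : 4 ≤ k) : 42 * k < 4 ^ k := by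
  induction k, hk using Nat.le_induction with
  | base => norm_num
  | succ k hk ih => rw [pow_succ]; omega

lemma tw_pow {k : ℕ} (hk : 2 ≤ k) : 93 * k < 27 ^ k := by
  induction k, hk using Nat.le_induction with
  | base => norm_num
  | succ k hk ih => rw [pow_succ]; omega

lemma big_pow {p k : ℕ} (hp : 5 ≤ p) (hk : 1 ≤ k) : (10 * p + 1) * k < p ^ (p * k - 1) := by
  have h1 : p ^ (4 * k) ≤ p ^ (p * k - 1) := by
    apply Nat.pow_le_pow_right (by omega)
    have : 5 * k ≤ p * k := Nat.mul_le_mul_right _ hp
    omega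
  refine lt_of_lt_of_le ?_ h1
  induction k, hk using Nat.le_induction with
  | base =>
    have h2 : 5 * 5 * 5 * p ≤ p * p * p * p := by gcongr
    have h3 : p ^ (4 * 1) = p * p * p * p := by ring
    rw [h3]; omega
  | succ k hk ih =>
    have ih' := ih (by
      apply Nat.pow_le_pow_right (by omega)
      have : 5 * k ≤ p * k := Nat.mul_le_mul_right _ hp
      omega)
    have h3 : p ^ (4 * (k + 1)) = p ^ (4 * k) * p ^ 4 := by rw [← pow_add]; ring_nf
    have h4 : 2 ≤ p ^ 4 := by
      calc 2 ≤ 5 ^ 4 := by norm_num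
        _ ≤ p ^ 4 := Nat.pow_le_pow_left hp 4
    rw [h3]
    calc (10 * p + 1) * (k + 1) ≤ (10 * p + 1) * k * 2 := by nlinarith
      _ < p ^ (4 * k) * 2 := by omega
      _ ≤ _ := Nat.mul_le_mul_left _ h4

/-- no solution is a prime power -/
theorem not_primePow {n : ℕ} (h : code n = n) : ¬ IsPrimePow n := by
  intro hpp
  rw [isPrimePow_nat_iff] at hpp
  obtain ⟨p, e, hp, he, rfl⟩ := hpp
  rw [code_prime_pow hp he] at h
  have hpe : p ∣ e := by
    have h1 : p ∣ p ^ e := dvd_pow_self p (by omega)
    rw [← h] at h1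
    exact (Nat.dvd_add_right (Dvd.intro _ rfl)).1 h1
  obtain ⟨k, rfl⟩ := hpe
  have hk : 1 ≤ k := by
    rcases Nat.eq_zero_or_pos k with h0 | h0
    · subst h0; simp at he
    · exact h0
  have hp2 := hp.two_le
  have hlen := pow_len_le (y := p * k) (by positivity)
  have hle : p ^ (p * k) ≤ p * ((10 * p + 1) * k) := by
    rw [← h]
    calc p * 10 ^ len (p * k) + p * k ≤ p * (10 * (p * k)) + p * k :=
          Nat.add_le_add_right (Nat.mul_le_mul_left _ hlen) _
      _ = p * ((10 * p + 1) * k) := by ring
  have hpos : 1 ≤ p * k := he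
  have hsplit : p ^ (p * k) = p * p ^ (p * k - 1) := by
    rw [← pow_succ', Nat.sub_add_cancel hpos]
  rcases Nat.lt_or_ge p 5 with h5 | h5
  · interval_cases p
    · -- p = 2
      rcases Nat.lt_or_ge k 4 with h4 | h4
      · interval_cases k <;> simp [len] at h
      · have := four_pow h4
        rw [pow_mul] at hle
        norm_num at hle
        omega
    · -- p = 3
      rcases Nat.lt_or_ge k 2 with h4 | h4
      · interval_cases k; simp [len] at h
      · have := tw_pow h4
        rw [pow_mul] at hle
        norm_num at hle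
        omega
    · exact absurd hp (by norm_num)
  · have := big_pow h5 hk
    rw [hsplit] at hle
    have h6 := Nat.le_of_mul_le_mul_left hle (by omega)
    omega

end Pool.Agent.Fix85
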