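import Pool.Agent.Fix85.Count

namespace Pool.Agent.Fix85

/-- the count up to `x` -/
theorem count_real (x : ℕ) (hx : 2 ≤ x) :
    (((Finset.Icc 2 x).filter (fun n => code n = n)).card : ℝ) ≤
      32000000 * (x : ℝ) ^ (2 / 3 : ℝ) * Real.log x ^ 3 := by
  set k := Nat.log 10 x / 3 with hk
  have hlog : 10 ^ Nat.log 10 x ≤ x := Nat.pow_log_le_self 10 (by omega)
  have hlt : x < 10 ^ (3 * (k + 1)) := by
    refine lt_of_lt_of_le (Nat.lt_pow_succ_log_self (by norm_num : 1 < 10) x) ?_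
    exact Nat.pow_le_pow_right (by norm_num) (by omega)
  have hsub : (Finset.Icc 2 x).filter (fun n => code n = n) ⊆ Fx (k + 1) := by
    intro n hn
    rw [Finset.mem_filter, Finset.mem_Icc] at hn
    rw [mem_Fx]
    exact ⟨by omega, hn.1.1, hn.2⟩
  have h1 := (Finset.card_le_card hsub).trans (count_le (k + 1))
  have h2 : (((Finset.Icc 2 x).filter (fun n => code n = n)).card : ℝ) ≤
      5000 * ((k : ℝ) + 2) ^ 3 * (100 * (10 : ℝ) ^ (2 * k)) := by
    have h3 : (((Finset.Icc 2 x).filter (fun n => code n = n)).card : ℝ) ≤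
      ((5000 * (k + 1 + 1) ^ 3 * 10 ^ (2 * (k + 1)) : ℕ) : ℝ) := by exact_mod_cast h1
    refine h3.trans (le_of_eq ?_)
    push_cast
    ring
  have hx0 : (0 : ℝ) < x := by positivity
  have h10 : ((10 : ℝ) ^ (3 * k)) ≤ x := by
    have : 10 ^ (3 * k) ≤ x := le_trans (Nat.pow_le_pow_right (by norm_num) (by omega)) hlog
    exact_mod_cast this
  have h4 : (10 : ℝ) ^ (2 * k) ≤ (x : ℝ) ^ (2 / 3 : ℝ) := by
    have e1 : (10 : ℝ) ^ (2 * k) = ((10 : ℝ) ^ (3 * k)) ^ (2 / 3 : ℝ) := by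
      rw [← Real.rpow_natCast, ← Real.rpow_natCast, ← Real.rpow_mul (by norm_num)]
      congr 1
      push_cast
      ring
    rw [e1]
    exact Real.rpow_le_rpow (by positivity) h10 (by norm_num)
  have hlx : (1 : ℝ) / 2 ≤ Real.log x := by
    have : Real.log 2 ≤ Real.log x := Real.log_le_log (by norm_num) (by exact_mod_cast hx)
    have := Real.log_two_gt_d9
    linarith
  have h5 : (k : ℝ) + 2 ≤ 4 * Real.log x + 0 := by
    have e1 : (3 * k : ℝ) * Real.log 10 ≤ Real.log x := by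
      have h6 := Real.log_le_log (by positivity) h10
      rw [Real.log_pow] at h6
      push_cast at h6
      exact h6
    have e2 : (2 : ℝ) ≤ Real.log 10 := by
      have h7 : Real.log 8 ≤ Real.log 10 := Real.log_le_log (by norm_num) (by norm_num)
      have h8 : Real.log 8 = 3 * Real.log 2 := by
        rw [show (8 : ℝ) = 2 ^ 3 by norm_num, Real.log_pow]; norm_num
      have := Real.log_two_gt_d9
      linarith
    have hk0 : (0 : ℝ) ≤ k := Nat.cast_nonneg k
    have e3 : (3 * k : ℝ) * 2 ≤ Real.log x := le_trans (by nlinarith) e1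
    have e4 : Real.log 2 ≤ Real.log x := Real.log_le_log (by norm_num) (by exact_mod_cast hx)
    have := Real.log_two_gt_d9
    linarith
  have h6 : ((k : ℝ) + 2) ^ 3 ≤ (4 * Real.log x) ^ 3 := by
    refine pow_le_pow_left₀ (by positivity) ?_ 3
    linarith
  calc _ ≤ 5000 * ((k : ℝ) + 2) ^ 3 * (100 * (10 : ℝ) ^ (2 * k)) := h2
    _ ≤ 5000 * (4 * Real.log x) ^ 3 * (100 * (x : ℝ) ^ (2 / 3 : ℝ)) := by
      have : (0 : ℝ) ≤ Real.log x := by linarith
      gcongr
    _ = _ := by ring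

end Pool.Agent.Fix85
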